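import Pool.Agent.Lib.H76.Morse.Final

/-!
# Groups with infinite `σ`-compact Morse boundary contain free subgroups

Let `G` be a finitely generated group whose Morse boundary is infinite and strongly `σ`-compact
(or just `σ`-compact).  Then `G` contains a free subgroup of rank two.

The definitions used in the statement (the Cayley graph as a metric space, Morse gauges,
quasi-geodesics, Morse rays, the strata and the Morse boundary with the direct limit topology,
strongly `σ`-compact spaces) are in the file `Pool/Agent/Lib/H76/Morse/Defs.lean`.
-/

namespace Pool.Agent.Results.MP_689e6f_al.SigmaCompactFree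

open Pool.Agent.Lib.H76.MorseDefs

universe u

/-- Direct limits of countably many compact spaces are `σ`-compact. -/
theorem sigmaCompact_of_strongly {B : Type u} [TopologicalSpace B]
    (h : StronglySigmaCompact B) : SigmaCompactSpace B := by
  obtain ⟨J, _, _, _, F, c, hc, hcomp, ⟨f⟩⟩ := h
  refine SigmaCompactSpace.of_countable
    (Set.range fun j => f.symm '' Set.range (c.ι.app j)) (Set.countable_range _) ?_ ?_
  · rintro _ ⟨j, rfl⟩
    have := hcomp j
    exact (isCompact_range (c.ι.app j).hom.continuous).image f.symm.continuous
  · rw [Set.eq_univ_iff_forall]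
    intro x
    obtain ⟨j, y, hy⟩ := CategoryTheory.Limits.Concrete.isColimit_exists_rep F hc (f x)
    refine Set.mem_sUnion.mpr ⟨_, ⟨j, rfl⟩, f x, ⟨y, hy⟩, by simp⟩

/-- Let `G` be a group with a finite generating set `S`. If the Morse boundary of the Cayley graph
is infinite and strongly `σ`-compact (or `σ`-compact), then `G` has a subgroup which is isomorphic
to the free group of rank two. -/
theorem result (G : Type u) [Group G] (S : Finset G) (hS : Subgroup.closure (S : Set G) = ⊤)
    (hinf : Infinite (MorseBoundary (Realization.vertex 1 : CayleyGraph S hS)))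
    (hsigma : StronglySigmaCompact (MorseBoundary (Realization.vertex 1 : CayleyGraph S hS)) ∨
      SigmaCompactSpace (MorseBoundary (Realization.vertex 1 : CayleyGraph S hS))) :
    ∃ H : Subgroup G, Nonempty (H ≃* FreeGroup (Fin 2)) := by
  have hσ : SigmaCompactSpace (MorseBoundary (Realization.vertex 1 : CayleyGraph S hS)) :=
    hsigma.elim sigmaCompact_of_strongly id
  obtain ⟨f, hf⟩ := Pool.Agent.Lib.H76.Morse.main_cayley S hS hinf hσ
  exact ⟨f.range, ⟨(MonoidHom.ofInjective hf).symm.trans
    (FreeGroup.freeGroupCongr finTwoEquiv).symm⟩⟩

end Pool.Agent.Results.MP_689e6f_al.SigmaCompactFree
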